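import Pool.Agent.H85.AU.Targets

/-!
# MP_c9ef16_gt, topological half, part 2: module HOM, morphisms to a bounded complex are finite
-/

open CategoryTheory CategoryTheory.Limits

universe w

namespace Pool.Agent.H39.AU

open Pool.Agent.H85.AU

section

variable {C : Type 1} [Category.{0} C] [Abelian C] [HasDerivedCategory.{1} C]

open ZeroObject in
/-- an object of the derived category without cohomology is zero -/
lemma isZero_of_homology (L : DerivedCategory C)
    (h : ∀ i, IsZero ((DerivedCategory.homologyFunctor C i).obj L)) : IsZero L := by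
  have h0 : IsIso (0 : (0 : DerivedCategory C) ⟶ L) := by
    rw [DerivedCategory.isIso_iff]
    intro n
    have h1 : IsZero ((DerivedCategory.homologyFunctor C n).obj (0 : DerivedCategory C)) :=
      Functor.map_isZero _ (isZero_zero _)
    exact ⟨(h n).to_ _, h1.eq_of_src _ _, (h n).eq_of_src _ _⟩
  exact (isZero_zero (DerivedCategory C)).of_iso (asIso (0 : (0 : DerivedCategory C) ⟶ L)).symm

/-- the middle term of a distinguished triangle -/
lemma finite_hom_middle {A K L M : DerivedCategory C} {f : K ⟶ L} {g : L ⟶ M} {h : M ⟶ K⟦(1 : ℤ)⟧}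
    (hT : Pretriangulated.Triangle.mk f g h ∈ Pretriangulated.distinguishedTriangles) (k : ℤ)
    (h1 : Finite (A ⟶ K⟦k⟧)) (h3 : Finite (A ⟶ M⟦k⟧)) : Finite (A ⟶ L⟦k⟧) := by
  have hT' := Pretriangulated.Triangle.shift_distinguished _ hT k
  set T := (Pretriangulated.Triangle.shiftFunctor (DerivedCategory C) k).obj
    (Pretriangulated.Triangle.mk f g h) with hTdef
  have hr : (Set.range (AddMonoidHom.id (A ⟶ T.obj₂))).Finite := by
    refine finite_range_of_ker (Preadditive.rightComp A T.mor₂) (AddMonoidHom.id _) ?_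
      (Set.range (fun u : A ⟶ T.obj₁ => u ≫ T.mor₁)) ?_ fun α hα => ?_
    · have : Finite (A ⟶ T.obj₃) := h3
      exact Set.toFinite _
    · have : Finite (A ⟶ T.obj₁) := h1
      exact Set.toFinite _
    · obtain ⟨u, hu⟩ := Pretriangulated.Triangle.coyoneda_exact₂ T hT' α hα
      exact ⟨u, hu.symm⟩
  have h2 : (Set.univ : Set (A ⟶ T.obj₂)).Finite := by
    refine hr.subset fun x _ => ⟨x, rfl⟩
  exact Set.finite_univ_iff.1 h2

end

/-- HOM: finiteness of morphisms to a bounded complex -/
theorem hom (hTRI : T_TRI) (hHM0 : T_HM0.{w}) : T_HOM.{w} := by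
  intro C _ _ _ _ P hiso hzero hfin A hA b a n
  induction n with
  | zero =>
    intro L _ hlt hge k
    have hL : IsZero L := by
      refine isZero_of_homology L fun i => ?_
      rcases lt_or_ge i a with h | h
      · exact hlt i h
      · exact hge i (by simpa using h)
    have hLk : IsZero (L⟦k⟧) := Functor.map_isZero (shiftFunctor (DerivedCategory C) k) hL
    have : Subsingleton ((DerivedCategory.singleFunctor C b).obj A ⟶ L⟦k⟧) :=
      ⟨fun x y => hLk.eq_of_tgt x y⟩
    exact Finite.of_subsingleton
  | succ n ih =>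
    intro L hP hlt hge k
    obtain ⟨L', G, f, g, h, hT, ⟨eG⟩, hL1, hL2⟩ := hTRI C L (a + n) (fun i hi => hge i (by
      push_cast
      omega))
    have hG : P G := hiso _ _ ⟨eG.symm⟩ (hP _)
    have hP' : ∀ i, P ((DerivedCategory.homologyFunctor C i).obj L') := by
      intro i
      rcases lt_or_ge i (a + n) with hi | hi
      · obtain ⟨e⟩ := hL1 i hi
        exact hiso _ _ ⟨e.symm⟩ (hP i)
      · exact hzero _ (hL2 i hi)
    have hlt' : ∀ i, i < a → IsZero ((DerivedCategory.homologyFunctor C i).obj L') := by
      intro i hi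
      obtain ⟨e⟩ := hL1 i (by omega)
      exact (hlt i hi).of_iso e
    exact finite_hom_middle hT k (ih L' hP' hlt' hL2 k)
      (hHM0 C A G (hfin A G hA hG) b (a + n) k)

end Pool.Agent.H39.AU
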